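import Mathlib
import Pool.Agent.Helper974.Moufang.Assoc
import Pool.Agent.Helper974.Moufang.Ext

set_option autoImplicit false

namespace Pool.Agent.Results.MP_fd6bc6_al.AComponentReduction

open Pool.Agent.Helper974.Moufang

/-- there is an invariant integral (Haar integral) for the product `mul` on `L`: a normalised
positive linear functional on `C(L)` invariant under all left and right translations -/
def HasInvariantIntegral {L : Type*} [TopologicalSpace L] (mul : L → L → L) : Prop :=
  ∃ I : C(L, ℝ) →ₗ[ℝ] ℝ, I 1 = 1 ∧ (∀ f : C(L, ℝ), (∀ x, 0 ≤ f x) → 0 ≤ I f) ∧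
    (∀ (a : L) (f g : C(L, ℝ)), (∀ x, g x = f (mul a x)) → I g = I f) ∧
    (∀ (a : L) (f g : C(L, ℝ)), (∀ x, g x = f (mul x a)) → I g = I f)

/-- the same for a subset `K` closed under the product: a normalised positive linear functional on
`C(K)` invariant under the translations `y ↦ k y` and `y ↦ y k` of `K`, for all `k ∈ K` -/
def HasInvariantIntegralOn {L : Type*} [TopologicalSpace L] (mul : L → L → L) (K : Set L) : Prop :=
  ∃ I : C(K, ℝ) →ₗ[ℝ] ℝ, I 1 = 1 ∧ (∀ f : C(K, ℝ), (∀ x, 0 ≤ f x) → 0 ≤ I f) ∧
    (∀ (k : K) (f g : C(K, ℝ)), (∀ y z : K, (z : L) = mul k y → g y = f z) → I g = I f) ∧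
    (∀ (k : K) (f g : C(K, ℝ)), (∀ y z : K, (z : L) = mul y k → g y = f z) → I g = I f)

/-- Let `L` be a compact Moufang loop with identity component `L₀`.
(A) If `L₀` is associative, then `L` has an invariant integral.
(C) If the connected loop `L₀` has an invariant integral, then `L` has an invariant integral. -/
theorem result (L : Type*) [TopologicalSpace L] [CompactSpace L] [T2Space L]
    (mul ldiv rdiv : L → L → L) (e : L)
    (h1 : ∀ x, mul e x = x) (h2 : ∀ x, mul x e = x)
    (h3 : ∀ x y, mul x (ldiv x y) = y) (h4 : ∀ x y, ldiv x (mul x y) = y)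
    (h5 : ∀ x y, mul (rdiv y x) x = y) (h6 : ∀ x y, rdiv (mul y x) x = y)
    (h7 : ∀ x y z, mul z (mul x (mul z y)) = mul (mul (mul z x) z) y)
    (hmul : Continuous (fun p : L × L => mul p.1 p.2))
    (hldiv : Continuous (fun p : L × L => ldiv p.1 p.2))
    (_hrdiv : Continuous (fun p : L × L => rdiv p.1 p.2)) :
    ((∀ x ∈ connectedComponent e, ∀ y ∈ connectedComponent e, ∀ z ∈ connectedComponent e,
        mul (mul x y) z = mul x (mul y z)) → HasInvariantIntegral mul) ∧
    (HasInvariantIntegralOn mul (connectedComponent e) → HasInvariantIntegral mul) := by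
  have h : IsMoufang mul ldiv rdiv e := ⟨h1, h2, h3, h4, h5, h6, h7⟩
  constructor
  · intro hass
    obtain ⟨I, hI, hI3, hI4⟩ := assoc_case h hmul hldiv hass
    exact ⟨I, hI.1, hI.2, hI3, hI4⟩
  · rintro ⟨I0, i1, i2, i3, i4⟩
    let M : C(L, ℝ) →ₗ[ℝ] ℝ :=
      { toFun := fun f => I0 (f.restrict (connectedComponent e))
        map_add' := fun f g => by rw [← map_add]; rfl
        map_smul' := fun c f => by rw [RingHom.id_apply, ← map_smul]; rfl }
    have hM : HaarComp mul e M := by
      refine ⟨⟨?_, ?_⟩, ?_, ?_, ?_⟩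
      · change I0 ((1 : C(L, ℝ)).restrict (connectedComponent e)) = 1
        have : (1 : C(L, ℝ)).restrict (connectedComponent e) = 1 := rfl
        rw [this, i1]
      · intro f hf
        exact i2 _ (fun x => hf _)
      · intro f hf
        change I0 (f.restrict (connectedComponent e)) = 0
        have : f.restrict (connectedComponent e) = 0 := by
          ext x
          exact hf x x.2
        rw [this, map_zero]
      · intro k hk f g hfg
        refine i3 ⟨k, hk⟩ _ _ (fun y z hz => ?_)
        change g y = f z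
        rw [hfg y y.2, hz]
      · intro k hk f g hfg
        refine i4 ⟨k, hk⟩ _ _ (fun y z hz => ?_)
        change g y = f z
        rw [hfg y y.2, hz]
    obtain ⟨I, hI, hI3, hI4⟩ := extension h hmul hldiv M hM
    exact ⟨I, hI.1, hI.2, hI3, hI4⟩

end Pool.Agent.Results.MP_fd6bc6_al.AComponentReduction
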